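import Mathlib

set_option autoImplicit false

namespace Pool.Agent.WTT.C52

open Equiv

variable {α β : Type*}

/-- number of cycles of a permutation, fixed points included -/
noncomputable def ncyc (f : Perm α) : ℕ := Nat.card (Quotient (Perm.SameCycle.setoid f))

theorem sameCycle_step (f : Perm α) (x : α) : f.SameCycle x (f x) := ⟨1, by simp⟩

/-- a function invariant under one step is constant on cycles -/
theorem const_of_step (f : Perm α) (φ : α → β) (h : ∀ z, φ (f z) = φ z) {x y : α}
    (hxy : f.SameCycle x y) : φ x = φ y := by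
  obtain ⟨i, rfl⟩ := hxy
  have h1 : ∀ z, φ (f⁻¹ z) = φ z := by
    intro z
    have := h (f⁻¹ z)
    rw [show f (f⁻¹ z) = z from f.apply_symm_apply z] at this
    exact this.symm
  induction i using Int.induction_on generalizing x with
  | zero => simp
  | succ n ih =>
    rw [zpow_add_one, Perm.mul_apply, ← ih, h]
  | pred n ih =>
    rw [zpow_sub_one, Perm.mul_apply, ← ih, h1]

/-- counting cycles by a map constant on the cycles of `g` -/
theorem card_le_ncyc [Finite α] (g : Perm α) (φ : α → β) (h : ∀ z, φ (g z) = φ z) (S : Set β)
    (hS : ∀ b ∈ S, ∃ z, φ z = b) : Nat.card S ≤ ncyc g := by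
  classical
  unfold ncyc
  let ψ : Quotient (Perm.SameCycle.setoid g) → β :=
    Quotient.lift φ (fun a b hab => const_of_step g φ h hab)
  have hfin : Finite (Quotient (Perm.SameCycle.setoid g)) := inferInstance
  have hex : ∀ b : S, ∃ q, ψ q = b.1 := by
    intro b
    obtain ⟨z, hz⟩ := hS b.1 b.2
    exact ⟨Quotient.mk _ z, hz⟩
  choose q hq using hex
  refine Nat.card_le_card_of_injective q ?_
  intro a b hab
  have := hq a
  rw [hab, hq b] at this
  exact Subtype.ext this.symm

theorem ncyc_mul_swap_ge [Finite α] [DecidableEq α] (f : Perm α) (x y : α) :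
    ncyc f ≤ ncyc (f * swap x y) + 1 := by
  classical
  let Q := Quotient (Perm.SameCycle.setoid f)
  let cl : α → Q := fun z => Quotient.mk _ z
  have hstep : ∀ z, cl (f z) = cl z := fun z => Quotient.sound (sameCycle_step f z).symm
  let φ : α → Q := fun z => if cl z = cl y then cl x else cl z
  have hφ : ∀ z, φ ((f * swap x y) z) = φ z := by
    intro z
    simp only [φ, Perm.mul_apply]
    by_cases hzx : z = x
    · subst hzx
      rw [swap_apply_left, hstep, if_pos rfl]
      split_ifs <;> rfl
    · by_cases hzy : z = y
      · subst hzy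
        rw [swap_apply_right, hstep, if_pos rfl]
        split_ifs <;> rfl
      · rw [swap_apply_of_ne_of_ne hzx hzy, hstep]
  have h1 := card_le_ncyc (f * swap x y) φ hφ {c | c ≠ cl y} (by
    intro b hb
    obtain ⟨z, hz⟩ := Quotient.exists_rep b
    have hz' : cl z = b := hz
    refine ⟨z, ?_⟩
    simp only [φ]
    rw [if_neg (by rw [hz']; exact hb), hz'])
  have hfin : Finite Q := inferInstance
  have : Fintype Q := Fintype.ofFinite Q
  have h2 : Nat.card Q ≤ Nat.card {c : Q | c ≠ cl y} + 1 := by
    have h3 : Nat.card {c : Q | c ≠ cl y} = Nat.card Q - 1 := by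
      rw [Nat.card_eq_fintype_card, Nat.card_eq_fintype_card]
      have : Fintype.card {c : Q | c ≠ cl y} = Fintype.card {c : Q // ¬ c = cl y} :=
        Fintype.card_congr (Equiv.refl _)
      rw [this, Fintype.card_subtype_compl, Fintype.card_subtype_eq]
    omega
  have h4 : ncyc f = Nat.card Q := rfl
  omega

/-- the involution version -/
theorem ncyc_mul_invol_ge [Fintype α] [DecidableEq α] (f s : Perm α) (hs : s * s = 1) :
    2 * ncyc f ≤ 2 * ncyc (f * s) + s.support.card := by
  classical
  obtain ⟨n, hn⟩ : ∃ n, s.support.card = n := ⟨_, rfl⟩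
  induction n using Nat.strong_induction_on generalizing f s with
  | _ n ih =>
    by_cases hs1 : s = 1
    · subst hs1
      simp
    · obtain ⟨x, hx⟩ : ∃ x, s x ≠ x := by
        by_contra hcon
        push Not at hcon
        exact hs1 (Perm.ext fun z => by rw [hcon z, Perm.one_apply])
      have hss : ∀ z, s (s z) = z := by
        intro z
        have := congrArg (fun p : Perm α => p z) hs
        simpa [Perm.mul_apply] using this
      -- s = swap x (s x) * s'
      let s' : Perm α := swap x (s x) * s
      have hss' : swap x (s x) * s' = s := by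
        simp only [s', ← mul_assoc, swap_mul_self, one_mul]
      have hs'x : s' x = x := by simp [s', Perm.mul_apply]
      have hs'y : s' (s x) = s x := by simp [s', Perm.mul_apply, hss]
      have hs'z : ∀ z, z ≠ x → z ≠ s x → s' z = s z := by
        intro z h1 h2
        simp only [s', Perm.mul_apply]
        refine swap_apply_of_ne_of_ne ?_ ?_
        · intro h3; apply h2; rw [← h3, hss]
        · intro h3; exact h1 (s.injective h3)
      have hinv : s' * s' = 1 := by
        refine Perm.ext fun z => ?_
        rw [Perm.mul_apply, Perm.one_apply]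
        by_cases h1 : z = x
        · rw [h1, hs'x, hs'x]
        · by_cases h2 : z = s x
          · rw [h2, hs'y, hs'y]
          · rw [hs'z z h1 h2, hs'z, hss]
            · intro h3; apply h2; rw [← h3, hss]
            · intro h3; exact h1 (s.injective h3)
      have hsup : s'.support ∪ {x, s x} = s.support := by
        ext z
        simp only [Finset.mem_union, Perm.mem_support, Finset.mem_insert, Finset.mem_singleton]
        constructor
        · rintro (h | h | h)
          · by_cases h1 : z = x
            · rw [h1]; exact hx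
            · by_cases h2 : z = s x
              · rw [h2, hss]; exact hx.symm
              · rwa [hs'z z h1 h2] at h
          · rw [h]; exact hx
          · rw [h, hss]; exact hx.symm
        · intro h
          by_cases h1 : z = x
          · exact Or.inr (Or.inl h1)
          · by_cases h2 : z = s x
            · exact Or.inr (Or.inr h2)
            · left; rwa [hs'z z h1 h2]
      have hdis : Disjoint s'.support {x, s x} := by
        rw [Finset.disjoint_right]
        intro z hz
        simp only [Finset.mem_insert, Finset.mem_singleton] at hz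
        rw [Perm.mem_support]
        rcases hz with rfl | rfl
        · exact not_not.2 hs'x
        · exact not_not.2 hs'y
      have hcard : s.support.card = s'.support.card + 2 := by
        rw [← hsup, Finset.card_union_of_disjoint hdis, Finset.card_pair (Ne.symm hx)]
      have h1 := ih s'.support.card (by omega) (f * swap x (s x)) s' hinv rfl
      rw [mul_assoc, hss'] at h1
      have h2 := ncyc_mul_swap_ge f x (s x)
      omega

/-- creating fixed points: if `s` is an involution exchanging `A` and `f '' A`, disjoint, and
trivial elsewhere, and `s = f` on `A`, then `f * s` has at least `card A` more cycles. -/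
theorem ncyc_mul_invol_add [Fintype α] [DecidableEq α] (f s : Perm α) (A : Finset α)
    (h1 : ∀ y ∈ A, s y = f y) (h2 : ∀ y ∈ A, s (f y) = y) (h3 : ∀ y ∈ A, f y ∉ A)
    (h4 : ∀ z, z ∉ A → z ∉ A.image f → s z = z) :
    ncyc f + A.card ≤ ncyc (f * s) := by
  classical
  let Q := Quotient (Perm.SameCycle.setoid f)
  let cl : α → Q := fun z => Quotient.mk _ z
  have hstep : ∀ z, cl (f z) = cl z := fun z => Quotient.sound (sameCycle_step f z).symm
  -- the map
  let φ : α → Q ⊕ α := fun z => if z ∈ A.image f then Sum.inr z else Sum.inl (cl z)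
  have hfix : ∀ z, z ∈ A.image f → (f * s) z = z := by
    intro z hz
    obtain ⟨y, hy, rfl⟩ := Finset.mem_image.1 hz
    rw [Perm.mul_apply, h2 y hy]
  have hnot : ∀ z, z ∉ A.image f → (f * s) z ∉ A.image f := by
    intro z hz hcon
    obtain ⟨y, hy, hyz⟩ := Finset.mem_image.1 hcon
    rw [Perm.mul_apply] at hyz
    have h5 := f.injective hyz
    -- y = s z
    have h6 : s y = s (s z) := by rw [← h5]
    by_cases hzA : z ∈ A
    · rw [h1 z hzA] at h5
      exact h3 z hzA (h5 ▸ hy)
    · have h7 := h4 z hzA hz
      rw [h7] at h5
      exact hzA (h5 ▸ hy)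
  have hφ : ∀ z, φ ((f * s) z) = φ z := by
    intro z
    by_cases hz : z ∈ A.image f
    · rw [hfix z hz]
    · simp only [φ]
      rw [if_neg (hnot z hz), if_neg hz]
      congr 1
      rw [Perm.mul_apply, hstep]
      by_cases hzA : z ∈ A
      · rw [h1 z hzA, hstep]
      · rw [h4 z hzA hz]
  have hfinQ : Finite Q := inferInstance
  have : Fintype Q := Fintype.ofFinite Q
  let S : Set (Q ⊕ α) := {b | (∃ q, b = Sum.inl q) ∨ ∃ z ∈ A.image f, b = Sum.inr z}
  have h5 := card_le_ncyc (f * s) φ hφ S (by
    rintro b (⟨q, rfl⟩ | ⟨z, hz, rfl⟩)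
    · obtain ⟨z, hz⟩ := Quotient.exists_rep q
      have hz' : cl z = q := hz
      by_cases hzf : z ∈ A.image f
      · obtain ⟨y, hy, rfl⟩ := Finset.mem_image.1 hzf
        refine ⟨y, ?_⟩
        have hyf : y ∉ A.image f := by
          intro hcon
          obtain ⟨w, hw, hwy⟩ := Finset.mem_image.1 hcon
          exact h3 w hw (hwy ▸ hy)
        simp only [φ]
        rw [if_neg hyf, ← hz', hstep]
      · exact ⟨z, by simp only [φ]; rw [if_neg hzf, hz']⟩
    · exact ⟨z, by simp only [φ]; rw [if_pos hz]⟩)
  have h6 : Nat.card (Q ⊕ (A.image f : Finset α)) ≤ Nat.card S := by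
    refine Nat.card_le_card_of_injective
      (fun c => match c with
        | Sum.inl q => ⟨Sum.inl q, Or.inl ⟨q, rfl⟩⟩
        | Sum.inr z => ⟨Sum.inr z.1, Or.inr ⟨z.1, z.2, rfl⟩⟩) ?_
    rintro (a | a) (b | b) hab
    · simpa using hab
    · simp at hab
    · simp at hab
    · simp only [Subtype.mk.injEq, Sum.inr.injEq] at hab
      exact congrArg Sum.inr (Subtype.ext hab)
  rw [Nat.card_sum] at h6
  have h7 : Nat.card (A.image f : Finset α) = A.card := by
    rw [Nat.card_eq_fintype_card, Fintype.card_coe, Finset.card_image_of_injective _ f.injective]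
  have h8 : ncyc f = Nat.card Q := rfl
  omega

end Pool.Agent.WTT.C52
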